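import Pool.Agent.Lib.P4a177c.Main
import Pool.Agent.Lib.P4a177c.Terms

/-!
# An integral element of `K_(m+1)` with nonzero regulator, on both sides of the conifold point

Let `m ≥ 1`, `e ∈ {1, 2}`, `c_1, …, c_m ≥ 1`, and let `N ≥ 1` be an integer different from
`N_c = 4 ^ (∑ c_j) * (e + 1) ^ (e + 1) / e ^ e`, the value for which the hypersurface
`X : N * x_0 * (1 - x_0) ^ e * ∏ (x_j * (1 - x_j)) ^ (c_j) = 1` acquires a node.

Then `X` is geometrically irreducible and smooth, and the Milnor K-group `K_(m+1)` of its coordinate
ring has an integral element (represented by a higher Chow cycle on all the proper models over `ℤ`,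
and unramified at all the discrete valuations of the function field) with a nonzero regulator along
a torus of dimension `m` in the complex points of `X`.

For `m = 2` and `(c_1, c_2; e) = (1, 1; 1), (1, 1; 2), (2, 1; 1), (3, 1; 2)` these are the four
hypergeometric families of K3 surfaces, with `N_c = 64, 108, 256, 1728`. For `0 < N < N_c` the target
of Beilinson's regulator map has dimension one, so the regulator is surjective.
-/

set_option autoImplicit false

namespace Pool.Agent.Results.MP_4a177b_nt.BelowConifold

open P4a177h P4a177c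

theorem result {m : ℕ} (hm : 1 ≤ m) {c : Fin m → ℕ} (hc : ∀ j, 1 ≤ c j) {e N : ℕ}
    (he : e = 1 ∨ e = 2) (hN : 1 ≤ N)
    (hNc : N * e ^ e ≠ 4 ^ (∑ j, c j) * (e + 1) ^ (e + 1)) :
    GeomIrreducible c e N ∧ Smooth c e N ∧
    ∃ (ξ : MilnorK (m + 1) (CoordRing c e N)) (γ : Torus m (CoordRing c e N)),
      P4a177s.Admissible ξ ∧ P4a177s.UnramifiedEverywhere ξ ∧ regulator ξ γ ≠ 0 :=
  main hm hc he hN hNc

end Pool.Agent.Results.MP_4a177b_nt.BelowConifold
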