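import Pool.Agent.Lib.P4a177e.Main

/-!
# Beilinson's regulator on every member of the families `N * ∏_s ∏_i (x_s - a_{s,i}) = 1`

Let `A` consist of `d + 2` lists of distinct integers `a_{s,0}, …, a_{s,m_s}` such that any two
numbers of the same list differ by at least `g ≥ 1`, and let `N ≥ 1` be an integer with
`16 ^ (d + 2) ≤ N * (g ^ 3) ^ (d + 2)`. So for `g ≥ 3` the integer `N ≥ 1` is arbitrary, for `g = 2`
it is any `N ≥ 2 ^ (d + 2)`, and for arbitrary distinct integers it is any `N ≥ 16 ^ (d + 2)`: the
condition does not depend on the degrees nor on the numbers of the lists.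

Then the hypersurface `X : N * ∏_s ∏_i (x_s - a_{s,i}) = 1` over `ℚ`, of dimension `d + 1`, is
geometrically irreducible and smooth; for `d = 0` its closure in `P¹ × P¹`, a curve of bidegree
`(m_0 + 1, m_1 + 1)`, is smooth as well. There are `∏ m_s` elements `ξ` of the Milnor K-group
`K_(d+2)` of the coordinate ring of `X` which are integral (represented by higher Chow cycles on all
the proper models over `ℤ`, and unramified at all the discrete valuations of the function field),
and as many tori of dimension `d + 1` in the complex points of `X`, such that the matrix of the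
regulators is nonsingular.
-/

set_option autoImplicit false

namespace Pool.Agent.Results.MP_4a177b_nt.EveryMember

open P4a177h P4a177e

theorem result {d : ℕ} (A : Fam d) {g N : ℕ} (hg : 1 ≤ g) (hN : 1 ≤ N) (hgap : Gap A g)
    (hbig : 16 ^ (d + 2) ≤ N * (g ^ 3) ^ (d + 2)) :
    GeomIrreducible A N ∧ Smooth A N ∧ (d = 0 → SmoothClosure A N) ∧
    ∃ (ξ : (∀ s, Fin (A.m s)) → MilnorK (d + 2) (A.CoordRing N))
      (γ : (∀ s, Fin (A.m s)) → Torus (d + 1) (A.CoordRing N)),
      (∀ p, P4a177s.Admissible (ξ p) ∧ P4a177s.UnramifiedEverywhere (ξ p)) ∧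
      (P4a177s.regulatorMatrix ξ γ).det ≠ 0 := by
  obtain ⟨h1, h2, h3⟩ := main hg hN hgap hbig
  refine ⟨h1, h2, ?_, h3⟩
  intro h0
  subst h0
  exact smoothClosure_of_gap A N hN h2

end Pool.Agent.Results.MP_4a177b_nt.EveryMember
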