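import Pool.Agent.Lib.P4a177b.Main

/-!
# Integral elements in `K_2` of curves near line arrangements

For every integral arrangement `A` of `D` lines in the plane and every large integer `N`, the curve
`N * ∏ l_i = 1` is irreducible and smooth, and its function field has `A.nodes + 1 - D` (the genus)
elements of `K_2`, integral in Beilinson's sense (the tame symbol at every discrete valuation,
horizontal or vertical, is torsion), with nonsingular regulator matrix.
-/

namespace Pool.Agent.Results.MP_4a177b_nt.LineArrangements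

open MvPolynomial

theorem result {D : ℕ} (A : P4a177b.Arr D) : ∃ N₀ : ℕ, ∀ N : ℕ, N₀ ≤ N →
    (Ideal.span {A.eqn N}).IsPrime ∧
    (∀ x y : ℂ, aeval ![x, y] (A.eqn N) = 0 →
      ¬ (aeval ![x, y] (pderiv 0 (A.eqn N)) = 0 ∧ aeval ![x, y] (pderiv 1 (A.eqn N)) = 0)) ∧
    ((∀ i j, i ≠ j → A.lam i j ≠ 0) → ∀ p : Fin 3 → ℂ, eval p (A.homEqn N) = 0 →
      (∀ k, eval p (pderiv k (A.homEqn N)) = 0) → p = 0) ∧
    ∀ (K : Type) [Field K] [Algebra (A.CoordRing N) K] [IsFractionRing (A.CoordRing N) K],
      ∃ ξ : Fin (A.nodes + 1 - D) → P4a177b.K2 K, (∀ p, P4a177b.Integral (ξ p)) ∧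
        ∃ γ : Fin (A.nodes + 1 - D) → P4a177b.GenericLoop K,
          (Matrix.of fun p q => P4a177b.reg (γ q) (ξ p)).det ≠ 0 :=
  P4a177b.main A

end Pool.Agent.Results.MP_4a177b_nt.LineArrangements
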