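import Pool.Agent.Lib.P4a177v.Gen

/-!
# In high degrees integrality is automatic at the vertical valuations

Let `F` be a field of characteristic zero of transcendence degree at most `d` over `ℚ`, for example
the function field of a variety of dimension `d` over `ℚ`. For every `n > 2 ^ (d + 1)` and every
discrete valuation `v` of `F` above a prime number, every element of the `n`-th Milnor K-group of
`F` is unramified at `v` (up to torsion).

The kernel of the tame symbol is generated, up to torsion, by the symbols of units, and the tame
symbol takes its values in `K_(n-1)` of the residue field, a field of transcendence degree at most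
`d` over the prime field with `p` elements; and `K_(n-1)` of such a field is torsion.
-/

set_option autoImplicit false

namespace Pool.Agent.Results.MP_4a177b_nt.VerticalIntegrality

open P4a177h

theorem result {F : Type*} [Field F] [CharZero F] (d n : ℕ) (hd : Algebra.trdeg ℚ F ≤ d)
    (hn : 2 ^ (d + 1) < n) (p : ℕ) (hp : p.Prime)
    (v : Valuation F (WithZero (Multiplicative ℤ))) (hv : v (p : F) < 1) (ξ : MilnorK n F) :
    Unramified v ξ :=
  P4a177v.all_unramified v hp hv d n hd hn ξ

end Pool.Agent.Results.MP_4a177b_nt.VerticalIntegrality
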